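import Pool.Agent.TH130.CI.Hvec

/-!
Initial growth of the `h`-vector of a Gorenstein set of points lying on a finite set cut out by
forms of low degree.
-/

open MvPolynomial

namespace Pool.Agent.Results.MP_845d9e_ag.InitialGrowth

open Pool.Agent.TH274.PT (GorPts)
open TH130CI (LastDeg CutOutBy LowForm SIUpTo hvec binLen)

/-- Let `β_δ` be the function with `β_δ(s) = s + 1` for `s < 2 δ` and
`β_δ(s) = β_δ(s - 1) + β_δ(⌊s / 2⌋)` for `s ≥ 2 δ`; it satisfies `β_δ(s) ≥ 2 ^ (r ^ 2) * δ ^ r` for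
`s ≥ 4 ^ r * δ`.  Let `K` be a field of characteristic zero, `Z` a reduced arithmetically Gorenstein
set of points of `P^n` with `h`-vector `(h_0, ..., h_D)`, contained in a finite set of points `W`
(for instance `W = Z`) which is cut out by forms of degree at most `δ`.  Let `N ≤ D` and suppose
that `(D - N + 2) * h_j < β_δ(D - N + 1)` for all `j < N`.  Then `h_0 ≤ h_1 ≤ ... ≤ h_N`, and
moreover there is a homogeneous ideal `J` such that the graded pieces of `R / J` of degrees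
`0, 1, ..., N` have the dimensions `1, h_1 - h_0, ..., h_N - h_{N-1}`. -/
theorem result :
    (∀ δ r s : ℕ, 1 ≤ δ → 4 ^ r * δ ≤ s → 2 ^ (r ^ 2) * δ ^ r ≤ binLen δ s) ∧
    ∀ (K : Type) [Field K] [CharZero K] (n : ℕ)
      (Z W : Finset (Fin (n + 1) → K)) (D δ N : ℕ),
      GorPts Z → LastDeg Z D → Z ⊆ W → (∀ p ∈ W, p ≠ 0) → N ≤ D →
      1 ≤ δ → CutOutBy (LowForm δ) W →
      (∀ j < N, (D - N + 2) * hvec Z j < binLen δ (D - N + 1)) →
      SIUpTo K n (hvec Z) N := by
  refine ⟨fun δ r s hδ hs => TH130CI.binLen_lower hδ r s hs, ?_⟩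
  intro K _ _ n Z W D δ N hG hL hZW hW0 hND hδ hW hB
  obtain ⟨c, hc⟩ := TH130CI.exists_lin_avoid W hW0
  obtain ⟨J, h1, -, h2, h3⟩ := TH130CI.growth_of_range (TH130CI.last_pos hL).1
    (fun p hp => hc p (hZW hp)) (TH130CI.beta_pts hG hL hZW hδ hW hc hND hB)
  refine ⟨fun i hi => ?_, J, h1, h2, h3⟩
  have := h3 i hi
  omega

end Pool.Agent.Results.MP_845d9e_ag.InitialGrowth
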