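import Pool.Agent.TH274.PT.Uni

/-!
# Unimodality for Gorenstein point sets over an ordered field with few sign changes
-/

open MvPolynomial

namespace Pool.Agent.Results.MP_845d9e_ag.SignCondition

open Pool.Agent.TH274.PT

/-- The number of points `p` of `Z` with `φ_p L(p) ℓ(p) ^ (D mod 2) < 0`, where `L = ∑ c_i x_i`
and `ℓ = ∑ a_i x_i`. -/
noncomputable def negPts {K : Type*} [Field K] [LinearOrder K] {n : ℕ} (Z : Finset (Fin (n + 1) → K)) (D : ℕ)
    (φ : (Fin (n + 1) → K) → K) (c a : Fin (n + 1) → K) : ℕ :=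
  (Z.filter (fun p => φ p * eval p (Pool.Agent.H500R2.WLP.lin c) *
    eval p (Pool.Agent.H500R2.WLP.lin a) ^ (D % 2) < 0)).card

/-- `φ` is a nonzero Cayley–Bacharach relation in degree `D - 1`, and forms of degree `D`
interpolate all functions on `Z` (so `D` is the last degree of the `h`-vector). -/
def CBRelation {K : Type*} [Field K] {n : ℕ} (Z : Finset (Fin (n + 1) → K)) (D : ℕ)
    (φ : (Fin (n + 1) → K) → K) : Prop :=
  (∀ v : (Fin (n + 1) → K) → K, ∃ g : MvPolynomial (Fin (n + 1)) K, g.IsHomogeneous D ∧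
    ∀ p ∈ Z, eval p g = v p) ∧
  (∃ p ∈ Z, φ p ≠ 0) ∧
  ∀ g : MvPolynomial (Fin (n + 1)) K, g.IsHomogeneous (D - 1) → ∑ p ∈ Z, φ p * eval p g = 0

/-- `L = ∑ c_i x_i` and `L' = ∑ c'_i x_i` have the same nonzero sign at every point of `Z`. -/
def SameSigns {K : Type*} [Field K] [LinearOrder K] {n : ℕ} (Z : Finset (Fin (n + 1) → K))
    (c c' : Fin (n + 1) → K) : Prop :=
  ∀ p ∈ Z, 0 < eval p (Pool.Agent.H500R2.WLP.lin c) * eval p (Pool.Agent.H500R2.WLP.lin c')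

/-- Let `K` be an ordered field and `Z` a reduced arithmetically Gorenstein set of points over `K`
with last degree `D ≥ 2` of the `h`-vector and Cayley–Bacharach weights `φ_p`.  Suppose that there
are linear forms `L₀`, `ℓ₀` vanishing at no point of `Z` with at most `H_Z(⌊D/2⌋ - 1)` points `p`
with `φ_p L₀(p) ℓ₀(p) ^ (D mod 2) < 0`.  Then the `h`-vector of `Z` is unimodal. Moreover
`R/(I_Z, L)` has the strong Lefschetz property for all `L` with the signs of `L₀` on `Z`, and the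
weak Lefschetz property for general `L`. -/
theorem result : ∀ (K : Type) [Field K] [LinearOrder K] [IsStrictOrderedRing K] (n : ℕ)
    (Z : Finset (Fin (n + 1) → K)) (D : ℕ) (φ : (Fin (n + 1) → K) → K) (c₀ a₀ : Fin (n + 1) → K),
    GorPts Z → 2 ≤ D → CBRelation Z D φ →
    (∀ p ∈ Z, eval p (Pool.Agent.H500R2.WLP.lin c₀) ≠ 0) →
    (∀ p ∈ Z, eval p (Pool.Agent.H500R2.WLP.lin a₀) ≠ 0) →
    negPts Z D φ c₀ a₀ ≤ Module.finrank K (Pool.Agent.H500R2.WLP.Rd Z (D / 2 - 1)) →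
    Unimodal (hv Z) ∧
    (∀ c : Fin (n + 1) → K, SameSigns Z c c₀ → SLP (red Z c) D) ∧
    ∃ F : MvPolynomial (Fin (n + 1)) K, F ≠ 0 ∧ ∀ c : Fin (n + 1) → K, eval c F ≠ 0 →
      WLP (red Z c) := by
  intro K _ _ _ n Z D φ c₀ a₀ hG hD hCB hc₀ ha₀ hneg
  exact ⟨main_sign_uni hD hG hCB.1 φ hCB.2.1 hCB.2.2 c₀ a₀ hc₀ ha₀ hneg,
    main_sign hD hG hCB.1 φ hCB.2.1 hCB.2.2 c₀ a₀ hc₀ ha₀ hneg⟩

end Pool.Agent.Results.MP_845d9e_ag.SignCondition
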