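import Pool.Agent.TH130.CI.Hvec

/-!
Initial growth of the `h`-vector of a Gorenstein set of points lying on a finite set cut out by
products of few linear forms.
-/

open MvPolynomial

namespace Pool.Agent.Results.MP_845d9e_ag.SplitGrowth

open Pool.Agent.TH274.PT (GorPts)
open TH130CI (LastDeg CutOutBy SplitForm SIUpTo hvec)

/-- Let `K` be a field of characteristic zero, `Z` a reduced arithmetically Gorenstein set of points
of `P^n` with `h`-vector `(h_0, ..., h_D)`, contained in a finite set of points `W` which is cut out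
by products of at most `δ` linear forms, `δ ≥ 2` (for instance in a grid with sides at most `δ` in
affine space).  Let `N ≤ D` and suppose that
`((D - N + 2) * h_j) ^ (δ - 1) < δ ^ (D - N + 1)` for all `j < N`.  Then
`h_0 ≤ h_1 ≤ ... ≤ h_N`, and moreover there is a homogeneous ideal `J` such that the graded pieces
of `R / J` of degrees `0, 1, ..., N` have the dimensions `1, h_1 - h_0, ..., h_N - h_{N-1}`. -/
theorem result (K : Type) [Field K] [CharZero K] (n : ℕ)
    (Z W : Finset (Fin (n + 1) → K)) (D δ N : ℕ)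
    (hG : GorPts Z) (hL : LastDeg Z D) (hZW : Z ⊆ W) (hW0 : ∀ p ∈ W, p ≠ 0) (hND : N ≤ D)
    (hδ : 2 ≤ δ) (hW : CutOutBy (SplitForm δ) W)
    (hB : ∀ j < N, ((D - N + 2) * hvec Z j) ^ (δ - 1) < δ ^ (D - N + 1)) :
    SIUpTo K n (hvec Z) N := by
  obtain ⟨c, hc⟩ := TH130CI.exists_lin_avoid W hW0
  obtain ⟨J, h1, -, h2, h3⟩ := TH130CI.growth_of_range (TH130CI.last_pos hL).1
    (fun p hp => hc p (hZW hp)) (TH130CI.split_pts hG hL hZW hδ hW hc hND hB)
  refine ⟨fun i hi => ?_, J, h1, h2, h3⟩
  have := h3 i hi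
  omega

end Pool.Agent.Results.MP_845d9e_ag.SplitGrowth
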